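import Pool.Agent.W593.ZT.Stm

/-! Project ZT, part HL: the half lemma. -/

open scoped Classical

set_option autoImplicit false

namespace Pool.Agent.W906.ZT

open Pool.Agent.W593.ZT

theorem hl : S_HL := by
  intro V K U α χ hsym hout
  -- absorbing sets
  let Ab : Finset V → Prop := fun P => ∀ z ∈ U, z ∉ P → ∃ h ∈ P, χ z h ≠ α z
  have hne : (U.powerset.filter Ab).Nonempty :=
    ⟨U, Finset.mem_filter.mpr ⟨Finset.mem_powerset_self U, fun z hz hz' => absurd hz hz'⟩⟩
  obtain ⟨P, hPm, hmin⟩ := Finset.exists_min_image _ Finset.card hne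
  rw [Finset.mem_filter, Finset.mem_powerset] at hPm
  obtain ⟨hPU, hP⟩ := hPm
  have hmin' : ∀ P' : Finset V, P' ⊆ U → Ab P' → P.card ≤ P'.card := fun P' h1 h2 =>
    hmin P' (Finset.mem_filter.mpr ⟨Finset.mem_powerset.mpr h1, h2⟩)
  let Q := U \ P
  have hQ : ∀ z, z ∈ Q ↔ z ∈ U ∧ z ∉ P := fun z => Finset.mem_sdiff
  have hcard : P.card + Q.card = U.card := by
    have := Finset.card_sdiff_add_card_eq_card hPU
    change P.card + (U \ P).card = U.card
    omega
  have hPQ : P.card ≤ Q.card + 1 := by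
    -- elements of `P` without out-neighbour in `Q`
    let X := P.filter (fun p => ∀ q ∈ Q, χ p q = α p)
    have hX : ∀ p, p ∈ X ↔ p ∈ P ∧ ∀ q ∈ Q, χ p q = α p := fun p => Finset.mem_filter
    have hnX : ∀ p ∈ P, p ∉ X → ∃ q ∈ Q, χ p q ≠ α p := by
      intro p hp hpX
      by_contra hcon
      push Not at hcon
      exact hpX ((hX p).mpr ⟨hp, hcon⟩)
    have hz : ∀ p ∈ X, ∃ z ∈ Q, (∀ h ∈ P, h ≠ p → χ z h = α z) ∧ α p ≠ α z := by
      intro p hp
      obtain ⟨hpP, hpQ⟩ := (hX p).mp hp
      obtain ⟨h, hU, hhp, hh⟩ := hout p (hPU hpP)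
      have hhP : h ∈ P := by
        by_contra hcon
        exact hh (hpQ h ((hQ h).mpr ⟨hU, hcon⟩))
      have hnab : ¬ Ab (P.erase p) := by
        intro hab
        have h1 := hmin' _ ((Finset.erase_subset p P).trans hPU) hab
        have h2 := Finset.card_erase_lt_of_mem hpP
        omega
      change ¬ ∀ z ∈ U, z ∉ P.erase p → ∃ h ∈ P.erase p, χ z h ≠ α z at hnab
      push Not at hnab
      obtain ⟨z, hzU, hzP, hz1⟩ := hnab
      have hzp : z ≠ p := by
        rintro rfl
        exact hh (hz1 h (Finset.mem_erase.mpr ⟨hhp, hhP⟩))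
      have hzP' : z ∉ P := fun hcon => hzP (Finset.mem_erase.mpr ⟨hzp, hcon⟩)
      refine ⟨z, (hQ z).mpr ⟨hzU, hzP'⟩, fun h hh hhp => hz1 h (Finset.mem_erase.mpr ⟨hhp, hh⟩), ?_⟩
      obtain ⟨h', hh'P, hh'⟩ := hP z hzU hzP'
      have hh'p : h' = p := by
        by_contra hcon
        exact hh' (hz1 h' (Finset.mem_erase.mpr ⟨hcon, hh'P⟩))
      subst hh'p
      intro hcon
      apply hh'
      rw [hsym, hpQ z ((hQ z).mpr ⟨hzU, hzP'⟩), hcon]
    have hpair : ∀ p ∈ X, ∀ p' ∈ X, p' ≠ p → ∀ z ∈ Q, (∀ h ∈ P, h ≠ p → χ z h = α z) →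
        α z = α p' := by
      intro p hp p' hp' hne z hz hzh
      rw [← hzh p' ((hX p').mp hp').1 hne, hsym]
      exact ((hX p').mp hp').2 z hz
    have hne' : ∀ p ∈ X, ∀ p' ∈ X, p' ≠ p → α p ≠ α p' := by
      intro p hp p' hp' hne
      obtain ⟨z, hzQ, hz1, hz2⟩ := hz p hp
      rw [← hpair p hp p' hp' hne z hzQ hz1]
      exact hz2
    have hX2 : X.card ≤ 2 := by
      by_contra hcon
      push Not at hcon
      obtain ⟨p, hp, p', hp', p'', hp'', h1, h2, h3⟩ := Finset.two_lt_card.mp hcon
      obtain ⟨z, hzQ, hz1, hz2⟩ := hz p hp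
      have e1 := hpair p hp p' hp' h1.symm z hzQ hz1
      have e2 := hpair p hp p'' hp'' h2.symm z hzQ hz1
      exact hne' p' hp' p'' hp'' h3.symm (e1.symm.trans e2)
    -- a small absorbing set
    rcases Nat.lt_or_ge X.card 1 with h0 | h1
    · have hX0 : X = ∅ := Finset.card_eq_zero.mp (by omega)
      have hab : Ab Q := by
        intro z hzU hzQ
        have hzP : z ∈ P := by
          by_contra hcon
          exact hzQ ((hQ z).mpr ⟨hzU, hcon⟩)
        exact hnX z hzP (by rw [hX0]; exact Finset.notMem_empty z)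
      have := hmin' Q Finset.sdiff_subset hab
      omega
    · -- one element suffices
      have hone : ∃ x ∈ X, ∀ p ∈ X, p ≠ x → χ p x ≠ α p := by
        rcases Nat.lt_or_ge X.card 2 with h2 | h2
        · obtain ⟨x, hx⟩ := Finset.card_eq_one.mp (show X.card = 1 by omega)
          refine ⟨x, by rw [hx]; exact Finset.mem_singleton_self x, fun p hp hpx => ?_⟩
          rw [hx, Finset.mem_singleton] at hp
          exact absurd hp hpx
        · obtain ⟨x, y, hxy, hXe⟩ := Finset.card_eq_two.mp (show X.card = 2 by omega)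
          have hx : x ∈ X := by rw [hXe]; simp
          have hy : y ∈ X := by rw [hXe]; simp
          have hα := hne' x hx y hy hxy.symm
          by_cases hc : χ x y = α x
          · refine ⟨x, hx, fun p hp hpx => ?_⟩
            rw [hXe, Finset.mem_insert, Finset.mem_singleton] at hp
            rcases hp with hp | hp
            · exact absurd hp hpx
            · rw [hp, hsym, hc]
              exact hα
          · refine ⟨y, hy, fun p hp hpx => ?_⟩
            rw [hXe, Finset.mem_insert, Finset.mem_singleton] at hp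
            rcases hp with hp | hp
            · rw [hp]
              exact hc
            · exact absurd hp hpx
      obtain ⟨x, hx, hx1⟩ := hone
      have hab : Ab (insert x Q) := by
        intro z hzU hzQ
        rw [Finset.mem_insert, not_or] at hzQ
        have hzP : z ∈ P := by
          by_contra hcon
          exact hzQ.2 ((hQ z).mpr ⟨hzU, hcon⟩)
        by_cases hzX : z ∈ X
        · exact ⟨x, Finset.mem_insert_self x Q, hx1 z hzX hzQ.1⟩
        · obtain ⟨q, hq, hq1⟩ := hnX z hzP hzX
          exact ⟨q, Finset.mem_insert_of_mem hq, hq1⟩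
      have hsub : insert x Q ⊆ U := by
        intro z hz
        rw [Finset.mem_insert] at hz
        rcases hz with rfl | hz
        · exact hPU ((hX z).mp hx).1
        · exact ((hQ z).mp hz).1
      have h3 := hmin' _ hsub hab
      have h4 := Finset.card_insert_le x Q
      omega
  refine ⟨P, Q, hPU, Finset.Subset.refl _, fun z hz => hP z ((hQ z).mp hz).1 ((hQ z).mp hz).2, ?_⟩
  omega

end Pool.Agent.W906.ZT
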